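import Pool.Agent.DFM.Stmts

/-!
# Values of a strictly monotone map (row GAP of squad DFM)

Problem MP_df7fe8_co.
-/

set_option autoImplicit false

namespace Pool.Agent.DFM.H47

open Pool.Agent.DFM

/-- row GAP -/
theorem gap : GapStmt := by
  intro I J w f hf i j
  have low_ok : Ok w (El.low ({i} : Finset I) : El I J) := Finset.singleton_nonempty i
  have top_ok : Ok w (El.top ({j} : Finset J) : El I J) := Finset.singleton_nonempty j
  have key : ∀ n : ℕ, n < w i j → f (El.low {i}) + 1 + n ≤ f (El.ch i j n) := by
    intro n
    induction n with
    | zero =>
      intro hn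
      have h := hf (El.low {i}) (El.ch i j 0) low_ok hn (Finset.mem_singleton_self i)
        (fun h => by cases h)
      push_cast
      linarith
    | succ n ih =>
      intro hn
      have h1 := ih (by omega)
      have h := hf (El.ch i j n) (El.ch i j (n + 1)) (show n < w i j by omega) hn
        ⟨rfl, rfl, Nat.le_succ n⟩ (fun h => by
          injection h with _ _ h
          omega)
      push_cast
      linarith
  rcases Nat.eq_zero_or_pos (w i j) with h0 | h0
  · have h := hf (El.low {i}) (El.top {j}) low_ok top_ok trivial (fun h => by cases h)
    rw [h0]
    push_cast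
    linarith
  · obtain ⟨m, hm⟩ : ∃ m, w i j = m + 1 := ⟨w i j - 1, by omega⟩
    have h1 := key m (by omega)
    have h := hf (El.ch i j m) (El.top {j}) (show m < w i j by omega) top_ok
      (Finset.mem_singleton_self j) (fun h => by cases h)
    rw [hm]
    push_cast
    linarith

end Pool.Agent.DFM.H47
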